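import Mathlib

/-!
# COROLLARY P (MP_e49dc9_ag), LOC, case 2: the linear algebra (text: think 1120)

`Th` is a linear form on `ℝ ^ r`, `Th e = 0`, `0 < Th A`; `Sec W`: the lattice point `W` has sections.  `h1`: the lattice points near `t e`,
`t` large, with `Th ≥ - κ / 4` have sections; `h2`: `Th ≥ 0` if there are sections.  Then `Th = τ δ` with `δ` integral, and there is a finite
set `P` of lattice points with sections such that for `p` near `e` with `δ(p) > 0` every functional `φ` with `φ ≥ 0` on `P` and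
`φ(A) > 0` is positive at `p`.
-/

set_option autoImplicit false

namespace Pool.Agent.H83.ZX

variable {r : ℕ}

/-- the value of a functional -/
def dt (φ v : Fin r → ℝ) : ℝ := ∑ i, φ i * v i

theorem dt_add (φ v w : Fin r → ℝ) : dt φ (fun i => v i + w i) = dt φ v + dt φ w := by
  unfold dt
  rw [← Finset.sum_add_distrib]
  exact Finset.sum_congr rfl fun i _ => by ring

theorem dt_smul (φ v : Fin r → ℝ) (a : ℝ) : dt φ (fun i => a * v i) = a * dt φ v := by
  unfold dt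
  rw [Finset.mul_sum]
  exact Finset.sum_congr rfl fun i _ => by ring

theorem dt_sub (φ v w : Fin r → ℝ) : dt φ (fun i => v i - w i) = dt φ v - dt φ w := by
  unfold dt
  rw [← Finset.sum_sub_distrib]
  exact Finset.sum_congr rfl fun i _ => by ring

theorem dt_le {φ v : Fin r → ℝ} {c : ℝ} (hv : ∀ i, |v i| ≤ c) : |dt φ v| ≤ (∑ i, |φ i|) * c := by
  unfold dt
  refine (Finset.abs_sum_le_sum_abs _ _).trans ?_
  rw [Finset.sum_mul]
  refine Finset.sum_le_sum fun i _ => ?_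
  rw [abs_mul]
  exact mul_le_mul_of_nonneg_left (hv i) (abs_nonneg _)

/-- there is no lattice point with a small negative value -/
theorem no_small {e th : Fin r → ℝ} {κ : ℝ} {Sec : (Fin r → ℤ) → Prop} (he : dt th e = 0)
    (h1 : ∀ c₀ : ℝ, ∃ t₁ : ℝ, ∀ (W : Fin r → ℤ) (t : ℝ), t₁ ≤ t → (∀ i, |(W i : ℝ) - t * e i| ≤ c₀) →
      - κ / 4 ≤ dt th (fun i => W i) → Sec W)
    (h2 : ∀ W, Sec W → 0 ≤ dt th (fun i => W i)) (u : Fin r → ℤ) (hu : dt th (fun i => u i) < 0) :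
    dt th (fun i => u i) ≤ - κ / 4 := by
  by_contra hlt
  push Not at hlt
  obtain ⟨s, hs⟩ : ∃ s, s = - dt th (fun i => u i) := ⟨_, rfl⟩
  have hs0 : 0 < s := by rw [hs]; linarith
  obtain ⟨C, hC⟩ : ∃ C, C = ∑ i, |th i| := ⟨_, rfl⟩
  have hC0 : 0 ≤ C := by rw [hC]; positivity
  obtain ⟨U, hU⟩ : ∃ U : ℝ, U = ∑ i, |(u i : ℝ)| := ⟨_, rfl⟩
  have hU0 : 0 ≤ U := by rw [hU]; positivity
  have hUi : ∀ i, |(u i : ℝ)| ≤ U := fun i => by
    rw [hU]
    exact Finset.single_le_sum (f := fun j => |(u j : ℝ)|) (fun j _ => abs_nonneg _) (Finset.mem_univ i)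
  obtain ⟨t, ht⟩ := h1 (1 + (C / s + 2) * U)
  obtain ⟨W, hW⟩ : ∃ W : Fin r → ℤ, W = fun i => ⌊t * e i⌋ := ⟨_, rfl⟩
  have hWi : ∀ i, |(W i : ℝ) - t * e i| ≤ 1 := fun i => by
    rw [hW, abs_le]
    have h3 := Int.lt_floor_add_one (t * e i)
    have h4 := Int.floor_le (t * e i)
    constructor
    · linarith
    · linarith
  have hThW : dt th (fun i => (W i : ℝ)) = dt th (fun i => (W i : ℝ) - t * e i) := by
    rw [dt_sub, dt_smul, he, mul_zero, sub_zero]
  have hTW : |dt th (fun i => (W i : ℝ))| ≤ C := by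
    rw [hThW]
    have h3 := dt_le (φ := th) hWi
    rw [mul_one, ← hC] at h3
    exact h3
  obtain ⟨m, hm⟩ : ∃ m : ℤ, m = ⌊dt th (fun i => (W i : ℝ)) / s⌋ + 1 := ⟨_, rfl⟩
  have hm1 : (m : ℝ) ≤ dt th (fun i => (W i : ℝ)) / s + 1 := by
    rw [hm]
    push_cast
    linarith [Int.floor_le (dt th (fun i => (W i : ℝ)) / s)]
  have hm2 : dt th (fun i => (W i : ℝ)) / s < m := by
    rw [hm]
    push_cast
    exact Int.lt_floor_add_one _
  have hm3 : |(m : ℝ)| ≤ C / s + 2 := by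
    have h3 := (abs_le.1 hTW).1
    have h4 := (abs_le.1 hTW).2
    have h5 : dt th (fun i => (W i : ℝ)) / s ≤ C / s := div_le_div_of_nonneg_right h4 hs0.le
    have h6 : - C / s ≤ dt th (fun i => (W i : ℝ)) / s := div_le_div_of_nonneg_right h3 hs0.le
    rw [abs_le]
    constructor
    · rw [neg_div] at h6
      linarith
    · linarith
  have hval : dt th (fun i => ((W i + m * u i : ℤ) : ℝ)) = dt th (fun i => (W i : ℝ)) - m * s := by
    have h3 : (fun i => ((W i + m * u i : ℤ) : ℝ)) = fun i => (W i : ℝ) + (fun j => (m : ℝ) * u j) i := by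
      funext i
      push_cast
      ring
    rw [h3, dt_add, dt_smul, hs]
    ring
  have hneg : dt th (fun i => ((W i + m * u i : ℤ) : ℝ)) < 0 := by
    rw [hval]
    rw [div_lt_iff₀ hs0] at hm2
    linarith
  have hge : - κ / 4 ≤ dt th (fun i => ((W i + m * u i : ℤ) : ℝ)) := by
    rw [hval]
    have h3 : (m : ℝ) * s ≤ (dt th (fun i => (W i : ℝ)) / s + 1) * s := mul_le_mul_of_nonneg_right hm1 hs0.le
    rw [add_mul, div_mul_cancel₀ _ hs0.ne'] at h3
    linarith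
  have hSec := ht (fun i => W i + m * u i) t le_rfl (fun i => by
    have h3 : ((W i + m * u i : ℤ) : ℝ) - t * e i = ((W i : ℝ) - t * e i) + m * u i := by
      push_cast
      ring
    rw [h3]
    refine (abs_add_le _ _).trans (add_le_add (hWi i) ?_)
    rw [abs_mul]
    exact mul_le_mul hm3 (hUi i) (abs_nonneg _) (by positivity)) hge
  exact absurd (h2 _ hSec) (not_le.2 hneg)

/-- `Th = τ δ` with `δ` integral -/
theorem exists_delta {th : Fin r → ℝ} {κ : ℝ} (hκ : 0 < κ)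
    (hsm : ∀ u : Fin r → ℤ, dt th (fun i => u i) < 0 → dt th (fun i => u i) ≤ - κ / 4)
    (hne : ∃ A : Fin r → ℤ, 0 < dt th (fun i => A i)) :
    ∃ (δ : Fin r → ℤ) (τ : ℝ) (a : Fin r → ℤ), 0 < τ ∧ (∀ i, th i = τ * δ i) ∧ ∑ i, δ i * a i = 1 := by
  classical
  obtain ⟨f, hf⟩ : ∃ f : (Fin r → ℤ) →+ ℝ, ∀ u, f u = dt th (fun i => u i) :=
    ⟨AddMonoidHom.mk' (fun u => dt th (fun i => u i)) fun u w => by
      have h3 : (fun i => (((u + w) i : ℤ) : ℝ)) = fun i => (u i : ℝ) + (fun j => (w j : ℝ)) i := by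
        funext i
        rw [Pi.add_apply]
        push_cast
        rfl
      rw [h3, dt_add], fun _ => rfl⟩
  obtain ⟨b, hb⟩ := AddSubgroup.cyclic_of_isolated_zero (H := f.range) (a := κ / 4) (by positivity) (by
    rw [Set.disjoint_left]
    rintro x hx ⟨h3, h4⟩
    obtain ⟨u, rfl⟩ := hx
    have h5 : f (-u) = - f u := map_neg f u
    have h6 := hsm (-u)
    rw [← hf, h5] at h6
    have h7 := h6 (by linarith)
    linarith)
  obtain ⟨A, hA⟩ := hne
  have hb0 : b ≠ 0 := by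
    intro h3
    have h4 : f A ∈ f.range := ⟨A, rfl⟩
    rw [hb, h3, AddSubgroup.closure_singleton_zero, AddSubgroup.mem_bot, hf] at h4
    linarith
  have key : ∀ b : ℝ, 0 < b → f.range = AddSubgroup.closure {b} →
      ∃ (δ : Fin r → ℤ) (τ : ℝ) (a : Fin r → ℤ), 0 < τ ∧ (∀ i, th i = τ * δ i) ∧ ∑ i, δ i * a i = 1 := by
    intro b hb0 hb
    have h3 : ∀ i, ∃ z : ℤ, th i = b * z := by
      intro i
      have h4 : f (Pi.single i 1) ∈ f.range := ⟨_, rfl⟩
      rw [hb, AddSubgroup.mem_closure_singleton] at h4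
      obtain ⟨z, hz⟩ := h4
      refine ⟨z, ?_⟩
      rw [hf] at hz
      have h5 : dt th (fun j => ((Pi.single i 1 : Fin r → ℤ) j : ℝ)) = th i := by
        unfold dt
        rw [Finset.sum_eq_single i]
        · simp
        · intro j _ hj
          simp [Pi.single_eq_of_ne hj]
        · intro h
          exact absurd (Finset.mem_univ i) h
      rw [h5] at hz
      rw [← hz, zsmul_eq_mul, mul_comm]
    choose δ hδ using h3
    have h4 : b ∈ f.range := by
      rw [hb]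
      exact AddSubgroup.mem_closure_singleton_self b
    obtain ⟨a, ha⟩ := h4
    refine ⟨δ, b, a, hb0, hδ, ?_⟩
    rw [hf] at ha
    have h5 : b * ((∑ i, δ i * a i : ℤ) : ℝ) = b * 1 := by
      rw [mul_one]
      refine Eq.trans ?_ ha
      unfold dt
      push_cast
      rw [Finset.mul_sum]
      refine Finset.sum_congr rfl fun i _ => ?_
      rw [hδ]
      ring
    have h6 := mul_left_cancel₀ hb0.ne' h5
    exact_mod_cast h6
  rcases lt_or_gt_of_ne hb0 with h3 | h3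
  · refine key (-b) (by linarith) ?_
    rw [hb]
    ext x
    rw [AddSubgroup.mem_closure_singleton, AddSubgroup.mem_closure_singleton]
    constructor
    · rintro ⟨z, hz⟩
      exact ⟨-z, by rw [← hz]; simp⟩
    · rintro ⟨z, hz⟩
      exact ⟨-z, by rw [← hz]; simp⟩
  · exact key b h3 hb

/-- a vector of the kernel of `δ` as a combination of the vectors `δ_i e_j - δ_j e_i` -/
theorem ker_comb {δ : Fin r → ℤ} {a : Fin r → ℤ} (ha : ∑ i, δ i * a i = 1) {v : Fin r → ℝ}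
    (hv : ∑ i, (δ i : ℝ) * v i = 0) (φ : Fin r → ℝ) :
    dt φ v = ∑ i, ∑ j, (a i : ℝ) * v j * (δ i * φ j - δ j * φ i) := by
  have h1 : (∑ i, (δ i : ℝ) * a i) = 1 := by exact_mod_cast ha
  have h2 : ∑ i, ∑ j, (a i : ℝ) * v j * (δ i * φ j - δ j * φ i) =
      (∑ i, (δ i : ℝ) * a i) * (∑ j, φ j * v j) - (∑ i, (a i : ℝ) * φ i) * (∑ j, (δ j : ℝ) * v j) := by
    rw [Finset.sum_mul_sum, Finset.sum_mul_sum, ← Finset.sum_sub_distrib]
    refine Finset.sum_congr rfl fun i _ => ?_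
    rw [← Finset.sum_sub_distrib]
    exact Finset.sum_congr rfl fun j _ => by ring
  rw [h2, h1, hv, one_mul, mul_zero, sub_zero]
  rfl

theorem dt_int (φ : Fin r → ℝ) (W u : Fin r → ℤ) (m : ℤ) :
    dt φ (fun i => ((W i + m * u i : ℤ) : ℝ)) = dt φ (fun i => (W i : ℝ)) + m * dt φ (fun i => (u i : ℝ)) := by
  rw [← dt_smul, ← dt_add]
  congr 1
  funext i
  push_cast
  ring

theorem dt_u (δ : Fin r → ℤ) (φ : Fin r → ℝ) (i j : Fin r) :
    dt φ (fun l => (((if l = j then δ i else 0) - (if l = i then δ j else 0) : ℤ) : ℝ)) = δ i * φ j - δ j * φ i := by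
  unfold dt
  push_cast
  simp only [mul_sub, Finset.sum_sub_distrib, mul_ite, mul_zero]
  simp only [Finset.sum_ite_eq', Finset.mem_univ, if_true]
  ring

/-- LOC, case 2: the linear algebra -/
theorem loc2 {e th : Fin r → ℝ} {κ : ℝ} (hκ : 0 < κ) {Sec : (Fin r → ℤ) → Prop} (he : dt th e = 0)
    (h1 : ∀ c₀ : ℝ, ∃ t₁ : ℝ, ∀ (W : Fin r → ℤ) (t : ℝ), t₁ ≤ t → (∀ i, |(W i : ℝ) - t * e i| ≤ c₀) →
      - κ / 4 ≤ dt th (fun i => W i) → Sec W)
    (h2 : ∀ W, Sec W → 0 ≤ dt th (fun i => W i)) (A : Fin r → ℤ) (hA : 0 < dt th (fun i => A i)) :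
    ∃ δ : Fin r → ℤ, 0 < ∑ i, δ i * A i ∧ (∃ τ : ℝ, 0 < τ ∧ ∀ i, th i = τ * δ i) ∧
      ∃ P : Finset (Fin r → ℤ), (∀ W ∈ P, Sec W) ∧ ∃ ε : ℝ, 0 < ε ∧ ∀ p : Fin r → ℝ, (∀ i, |p i - e i| < ε) →
        0 < ∑ i, (δ i : ℝ) * p i → ∀ φ : Fin r → ℝ, (∀ W ∈ P, 0 ≤ dt φ (fun i => W i)) →
          0 < dt φ (fun i => A i) → 0 < dt φ p := by
  classical
  obtain ⟨δ, τ, a, hτ, hδ, ha⟩ := exists_delta hκ (fun u hu => no_small he h1 h2 u hu) ⟨A, hA⟩
  have hth : ∀ v : Fin r → ℝ, dt th v = τ * ∑ i, (δ i : ℝ) * v i := by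
    intro v
    unfold dt
    rw [Finset.mul_sum]
    exact Finset.sum_congr rfl fun i _ => by rw [hδ]; ring
  have hδA : 0 < ∑ i, δ i * A i := by
    have h3 := hth (fun i => A i)
    rw [h3] at hA
    have h4 := (mul_pos_iff_of_pos_left hτ).1 hA
    exact_mod_cast h4
  have hδe : ∑ i, (δ i : ℝ) * e i = 0 := by
    have h3 := hth e
    rw [he] at h3
    exact (mul_eq_zero.1 h3.symm).resolve_left hτ.ne'
  have haR : ∑ i, (δ i : ℝ) * a i = 1 := by exact_mod_cast ha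
  obtain ⟨Dl, hDl⟩ : ∃ Dl : ℝ, Dl = ∑ i, |(δ i : ℝ)| := ⟨_, rfl⟩
  obtain ⟨Al, hAl⟩ : ∃ Al : ℝ, Al = ∑ i, |(a i : ℝ)| := ⟨_, rfl⟩
  have hDl0 : 0 ≤ Dl := by rw [hDl]; positivity
  have hAl0 : 0 ≤ Al := by rw [hAl]; positivity
  have hδi : ∀ i, |(δ i : ℝ)| ≤ Dl := fun i => by
    rw [hDl]
    exact Finset.single_le_sum (f := fun j => |(δ j : ℝ)|) (fun j _ => abs_nonneg _) (Finset.mem_univ i)
  have hai : ∀ i, |(a i : ℝ)| ≤ Al := fun i => by
    rw [hAl]
    exact Finset.single_le_sum (f := fun j => |(a j : ℝ)|) (fun j _ => abs_nonneg _) (Finset.mem_univ i)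
  obtain ⟨c, hc⟩ : ∃ c : ℝ, c = 1 + Dl * Al := ⟨_, rfl⟩
  have hc0 : 1 ≤ c := by
    rw [hc]
    have : 0 ≤ Dl * Al := by positivity
    linarith
  -- the number m
  obtain ⟨m, hm⟩ := exists_nat_gt (4 * (∑ i : Fin r, ∑ j : Fin r, |(a i : ℝ)| * (c + 1)))
  have hm0 : (0 : ℝ) < m := lt_of_le_of_lt (by positivity) hm
  -- the number t
  obtain ⟨t₁, ht₁⟩ := h1 (c + m * (2 * Dl) + Al)
  obtain ⟨t, ht⟩ : ∃ t : ℝ, t = max t₁ 1 := ⟨_, rfl⟩
  have htt : t₁ ≤ t := by rw [ht]; exact le_max_left _ _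
  have ht1 : 1 ≤ t := by rw [ht]; exact le_max_right _ _
  have ht0 : 0 < t := by linarith
  -- the point W0
  obtain ⟨W, hW⟩ : ∃ W : Fin r → ℤ, W = fun i => ⌊t * e i⌋ := ⟨_, rfl⟩
  have hWi : ∀ i, |(W i : ℝ) - t * e i| ≤ 1 := fun i => by
    rw [hW, abs_le]
    have h3 := Int.lt_floor_add_one (t * e i)
    have h4 := Int.floor_le (t * e i)
    constructor
    · linarith
    · linarith
  obtain ⟨s, hs⟩ : ∃ s : ℤ, s = ∑ i, δ i * W i := ⟨_, rfl⟩
  have hsb : |(s : ℝ)| ≤ Dl := by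
    have h3 : (s : ℝ) = dt (fun i => (δ i : ℝ)) (fun i => (W i : ℝ) - t * e i) := by
      rw [dt_sub, dt_smul]
      have h4 : dt (fun i => (δ i : ℝ)) e = 0 := hδe
      rw [h4, mul_zero, sub_zero, hs]
      push_cast
      rfl
    rw [h3]
    have h4 := dt_le (φ := fun i => (δ i : ℝ)) hWi
    rw [mul_one, ← hDl] at h4
    exact h4
  obtain ⟨W₀, hW₀⟩ : ∃ W₀ : Fin r → ℤ, W₀ = fun i => W i - s * a i := ⟨_, rfl⟩
  have hW₀i : ∀ i, |(W₀ i : ℝ) - t * e i| ≤ c := fun i => by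
    have h3 : (W₀ i : ℝ) - t * e i = ((W i : ℝ) - t * e i) + (-(s * a i)) := by
      rw [hW₀]
      push_cast
      ring
    rw [h3, hc]
    refine (abs_add_le _ _).trans (add_le_add (hWi i) ?_)
    rw [abs_neg, abs_mul]
    exact mul_le_mul hsb (hai i) (abs_nonneg _) hDl0
  have hδW₀ : ∑ i, (δ i : ℝ) * W₀ i = 0 := by
    have h3 : ∑ i, δ i * W₀ i = 0 := by
      have h4 : ∑ i, δ i * W₀ i = ∑ i, δ i * W i - s * ∑ i, δ i * a i := by
        rw [hW₀, Finset.mul_sum, ← Finset.sum_sub_distrib]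
        exact Finset.sum_congr rfl fun i _ => by ring
      rw [h4, ha, ← hs]
      ring
    exact_mod_cast h3
  obtain ⟨u, hu⟩ : ∃ u : Fin r → Fin r → Fin r → ℤ, u = fun i j l =>
      (if l = j then δ i else 0) - (if l = i then δ j else 0) := ⟨_, rfl⟩
  have hub : ∀ i j l, |(u i j l : ℝ)| ≤ 2 * Dl := by
    intro i j l
    rw [hu]
    push_cast
    refine (abs_sub _ _).trans ?_
    have h3 : |(if l = j then (δ i : ℝ) else 0)| ≤ Dl := by
      split_ifs
      · exact hδi i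
      · rw [abs_zero]
        exact hDl0
    have h4 : |(if l = i then (δ j : ℝ) else 0)| ≤ Dl := by
      split_ifs
      · exact hδi j
      · rw [abs_zero]
        exact hDl0
    linarith
  have hdu : ∀ (φ : Fin r → ℝ) i j, dt φ (fun l => (u i j l : ℝ)) = δ i * φ j - δ j * φ i := by
    intro φ i j
    rw [← dt_u δ φ i j, hu]
  have hδu : ∀ i j, ∑ l, (δ l : ℝ) * u i j l = 0 := by
    intro i j
    have h3 := hdu (fun l => (δ l : ℝ)) i j
    unfold dt at h3
    rw [h3]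
    ring
  obtain ⟨pt, hpt⟩ : ∃ pt : ℤ → Fin r → Fin r → Fin r → ℤ, pt = fun n i j l => W₀ l + n * u i j l := ⟨_, rfl⟩
  obtain ⟨P, hP⟩ : ∃ P : Finset (Fin r → ℤ), P = insert W₀ (insert (fun l => W₀ l + 1 * a l)
      ((Finset.univ.image fun ij : Fin r × Fin r => pt m ij.1 ij.2) ∪
        (Finset.univ.image fun ij : Fin r × Fin r => pt (-m) ij.1 ij.2))) := ⟨_, rfl⟩
  have hPu : ∀ i j, pt m i j ∈ P ∧ pt (-m) i j ∈ P := by
    intro i j
    rw [hP]
    constructor
    · exact Finset.mem_insert_of_mem (Finset.mem_insert_of_mem (Finset.mem_union_left _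
        (Finset.mem_image.2 ⟨(i, j), Finset.mem_univ _, rfl⟩)))
    · exact Finset.mem_insert_of_mem (Finset.mem_insert_of_mem (Finset.mem_union_right _
        (Finset.mem_image.2 ⟨(i, j), Finset.mem_univ _, rfl⟩)))
  have hP0 : W₀ ∈ P := by rw [hP]; exact Finset.mem_insert_self _ _
  have hPa : (fun l => W₀ l + 1 * a l) ∈ P := by
    rw [hP]
    exact Finset.mem_insert_of_mem (Finset.mem_insert_self _ _)
  have hκ4 : - κ / 4 ≤ 0 := by
    have : 0 ≤ κ / 4 := by positivity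
    rw [neg_div]
    linarith
  have hSu : ∀ (n : ℤ) (i j : Fin r), |(n : ℝ)| ≤ m → Sec (pt n i j) := by
    intro n i j hn
    refine ht₁ _ t htt (fun l => ?_) ?_
    · have h3 : ((pt n i j l : ℤ) : ℝ) - t * e l = ((W₀ l : ℝ) - t * e l) + n * u i j l := by
        rw [hpt]
        push_cast
        ring
      rw [h3]
      refine (abs_add_le _ _).trans ?_
      have h4 : |(n : ℝ) * u i j l| ≤ m * (2 * Dl) := by
        rw [abs_mul]
        exact mul_le_mul hn (hub i j l) (abs_nonneg _) hm0.le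
      have h5 := hW₀i l
      linarith
    · have h3 : dt th (fun l => ((pt n i j l : ℤ) : ℝ)) = 0 := by
        rw [hth]
        have h4 : ∑ l, (δ l : ℝ) * ((pt n i j l : ℤ) : ℝ) = ∑ l, (δ l : ℝ) * W₀ l + n * ∑ l, (δ l : ℝ) * u i j l := by
          rw [hpt, Finset.mul_sum, ← Finset.sum_add_distrib]
          exact Finset.sum_congr rfl fun l _ => by push_cast; ring
        rw [h4, hδW₀, hδu]
        ring
      rw [h3]
      exact hκ4
  refine ⟨δ, hδA, ⟨τ, hτ, hδ⟩, P, fun V hV => ?_, ?_⟩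
  · rw [hP, Finset.mem_insert, Finset.mem_insert, Finset.mem_union, Finset.mem_image, Finset.mem_image] at hV
    rcases hV with h3 | h3 | ⟨ij, -, h3⟩ | ⟨ij, -, h3⟩
    · rw [h3]
      refine ht₁ _ t htt (fun l => ?_) ?_
      · have h4 := hW₀i l
        have h5 : 0 ≤ (m : ℝ) * (2 * Dl) := by positivity
        linarith
      · have h4 : dt th (fun l => ((W₀ l : ℤ) : ℝ)) = 0 := by
          rw [hth, hδW₀, mul_zero]
        rw [h4]
        exact hκ4
    · rw [h3]
      refine ht₁ _ t htt (fun l => ?_) ?_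
      · have h6 : ((W₀ l + 1 * a l : ℤ) : ℝ) - t * e l = ((W₀ l : ℝ) - t * e l) + a l := by
          push_cast
          ring
        rw [h6]
        refine (abs_add_le _ _).trans ?_
        have h4 := hW₀i l
        have h5 : 0 ≤ (m : ℝ) * (2 * Dl) := by positivity
        have h7 := hai l
        linarith
      · rw [hth]
        have h4 : ∑ l, (δ l : ℝ) * ((W₀ l + 1 * a l : ℤ) : ℝ) = ∑ l, (δ l : ℝ) * W₀ l + ∑ l, (δ l : ℝ) * a l := by
          rw [← Finset.sum_add_distrib]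
          exact Finset.sum_congr rfl fun l _ => by push_cast; ring
        rw [h4, hδW₀, haR]
        linarith
    · rw [← h3]
      exact hSu m _ _ (by push_cast; rw [abs_of_pos hm0])
    · rw [← h3]
      exact hSu (-m) _ _ (by push_cast; rw [abs_neg, abs_of_pos hm0])
  -- the neighbourhood
  obtain ⟨ε, hε⟩ : ∃ ε : ℝ, ε = 1 / (4 * t * (1 + Dl * (1 + Al))) := ⟨_, rfl⟩
  have hden : 0 < 4 * t * (1 + Dl * (1 + Al)) := by positivity
  have hε0 : 0 < ε := by rw [hε]; positivity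
  have hε1 : t * ε * (1 + Dl * (1 + Al)) = 1 / 4 := by
    rw [hε]
    field_simp
  refine ⟨ε, hε0, fun p hp hθ φ hφ hφA => ?_⟩
  obtain ⟨θ, hθd⟩ : ∃ θ, θ = ∑ i, (δ i : ℝ) * p i := ⟨_, rfl⟩
  rw [← hθd] at hθ
  have hθb : θ ≤ Dl * ε := by
    have h3 : θ = dt (fun i => (δ i : ℝ)) (fun i => p i - e i) := by
      rw [dt_sub]
      have h4 : dt (fun i => (δ i : ℝ)) e = 0 := hδe
      rw [h4, sub_zero, hθd]
      rfl
    have h4 := dt_le (φ := fun i => (δ i : ℝ)) (v := fun i => p i - e i) (c := ε) fun i => (hp i).le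
    rw [← h3, ← hDl] at h4
    exact (le_abs_self _).trans h4
  have hφ0 := hφ _ hP0
  -- values of φ on the vectors u i j
  have hφu : ∀ i j, |δ i * φ j - δ j * φ i| ≤ dt φ (fun l => (W₀ l : ℝ)) / m := by
    intro i j
    have h3 := hφ _ (hPu i j).1
    have h4 := hφ _ (hPu i j).2
    have h5 : dt φ (fun l => ((pt m i j l : ℤ) : ℝ)) = dt φ (fun l => (W₀ l : ℝ)) + m * (δ i * φ j - δ j * φ i) := by
      rw [← hdu φ i j, hpt]
      have h6 := dt_int φ W₀ (u i j) m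
      push_cast at h6 ⊢
      exact h6
    have h6 : dt φ (fun l => ((pt (-m) i j l : ℤ) : ℝ)) = dt φ (fun l => (W₀ l : ℝ)) - m * (δ i * φ j - δ j * φ i) := by
      rw [← hdu φ i j, hpt]
      have h7 := dt_int φ W₀ (u i j) (-m)
      push_cast at h7 ⊢
      rw [h7]
      ring
    rw [h5] at h3
    rw [h6] at h4
    rw [le_div_iff₀ hm0]
    have h7 : |δ i * φ j - δ j * φ i| * m = |m * (δ i * φ j - δ j * φ i)| := by
      rw [abs_mul, abs_of_pos hm0, mul_comm]
    rw [h7, abs_le]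
    constructor <;> linarith
  have hφa : - dt φ (fun l => (W₀ l : ℝ)) ≤ dt φ (fun l => (a l : ℝ)) := by
    have h3 := hφ _ hPa
    rw [dt_int φ W₀ a 1] at h3
    push_cast at h3
    linarith
  rcases hφ0.eq_or_lt with h3 | h3
  · -- φ = φ(a) δ
    have h4 : ∀ i j, δ i * φ j - δ j * φ i = 0 := by
      intro i j
      have h5 := hφu i j
      rw [← h3, zero_div] at h5
      exact abs_nonpos_iff.1 h5
    have h5 : ∀ v : Fin r → ℝ, dt φ v = (∑ i, (δ i : ℝ) * v i) * dt φ (fun l => (a l : ℝ)) := by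
      intro v
      have h6 : ∑ i, (δ i : ℝ) * (v i - (∑ l, (δ l : ℝ) * v l) * a i) = 0 := by
        have h7 : ∑ i, (δ i : ℝ) * (v i - (∑ l, (δ l : ℝ) * v l) * a i) =
            ∑ i, (δ i : ℝ) * v i - (∑ l, (δ l : ℝ) * v l) * ∑ i, (δ i : ℝ) * a i := by
          rw [Finset.mul_sum, ← Finset.sum_sub_distrib]
          exact Finset.sum_congr rfl fun i _ => by ring
        rw [h7, haR, mul_one, sub_self]
      have h7 := ker_comb ha h6 φ
      rw [Finset.sum_eq_zero fun i _ => Finset.sum_eq_zero fun j _ => by rw [h4, mul_zero], dt_sub] at h7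
      have h8 : dt φ (fun i => (∑ l, (δ l : ℝ) * v l) * (a i : ℝ)) =
          (∑ l, (δ l : ℝ) * v l) * dt φ (fun l => (a l : ℝ)) := dt_smul φ (fun l => (a l : ℝ)) _
      rw [h8] at h7
      linarith
    have h6 := h5 (fun i => A i)
    rw [h6] at hφA
    have h7 : (0 : ℝ) < ∑ i, (δ i : ℝ) * A i := by exact_mod_cast hδA
    have h8 := (mul_pos_iff_of_pos_left h7).1 hφA
    rw [h5 p, ← hθd]
    positivity
  · obtain ⟨v, hv⟩ : ∃ v : Fin r → ℝ, v = fun i => (t * (p i - θ * a i)) - W₀ i := ⟨_, rfl⟩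
    have h4 : ∑ i, (δ i : ℝ) * v i = 0 := by
      have h5 : ∑ i, (δ i : ℝ) * v i = t * (∑ i, (δ i : ℝ) * p i - θ * ∑ i, (δ i : ℝ) * a i) -
          ∑ i, (δ i : ℝ) * W₀ i := by
        rw [hv, Finset.mul_sum, ← Finset.sum_sub_distrib, Finset.mul_sum, ← Finset.sum_sub_distrib]
        exact Finset.sum_congr rfl fun i _ => by ring
      rw [h5, ← hθd, haR, hδW₀]
      ring
    have h5 : ∀ i, |v i| ≤ c + 1 := by
      intro i
      have h6 : v i = (t * (p i - e i)) + (-(t * θ * a i)) + (-((W₀ i : ℝ) - t * e i)) := by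
        rw [hv]
        ring
      rw [h6]
      have h7 : |t * (p i - e i)| ≤ t * ε := by
        rw [abs_mul, abs_of_pos ht0]
        exact mul_le_mul_of_nonneg_left (hp i).le ht0.le
      have h8 : |-(t * θ * a i)| ≤ t * (Dl * ε) * Al := by
        rw [abs_neg, abs_mul, abs_of_pos (by positivity : 0 < t * θ)]
        exact mul_le_mul (mul_le_mul_of_nonneg_left hθb ht0.le) (hai i) (abs_nonneg _) (by positivity)
      have h9 : |-((W₀ i : ℝ) - t * e i)| ≤ c := by rw [abs_neg]; exact hW₀i i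
      have h10 : t * ε + t * (Dl * ε) * Al ≤ 1 := by
        have h11 : 0 ≤ t * ε * Dl := by positivity
        nlinarith
      have h12 := abs_add_le (t * (p i - e i) + (-(t * θ * a i))) (-((W₀ i : ℝ) - t * e i))
      have h13 := abs_add_le (t * (p i - e i)) (-(t * θ * a i))
      linarith
    have h6 : |dt φ v| ≤ dt φ (fun l => (W₀ l : ℝ)) / 4 := by
      rw [ker_comb ha h4 φ]
      have h7 : |∑ i, ∑ j, (a i : ℝ) * v j * (δ i * φ j - δ j * φ i)| ≤
          ∑ i : Fin r, ∑ j : Fin r, |(a i : ℝ)| * (c + 1) * (dt φ (fun l => (W₀ l : ℝ)) / m) := by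
        refine (Finset.abs_sum_le_sum_abs _ _).trans (Finset.sum_le_sum fun i _ => ?_)
        refine (Finset.abs_sum_le_sum_abs _ _).trans (Finset.sum_le_sum fun j _ => ?_)
        rw [abs_mul, abs_mul]
        exact mul_le_mul (mul_le_mul_of_nonneg_left (h5 j) (abs_nonneg _)) (hφu i j) (abs_nonneg _) (by positivity)
      refine h7.trans ?_
      have h8 : ∑ i : Fin r, ∑ j : Fin r, |(a i : ℝ)| * (c + 1) * (dt φ (fun l => (W₀ l : ℝ)) / m) =
          (∑ i : Fin r, ∑ j : Fin r, |(a i : ℝ)| * (c + 1)) * (dt φ (fun l => (W₀ l : ℝ)) / m) := by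
        simp only [← Finset.sum_mul]
      rw [h8]
      have h9 : (∑ i : Fin r, ∑ j : Fin r, |(a i : ℝ)| * (c + 1)) ≤ m / 4 := by linarith
      calc (∑ i : Fin r, ∑ j : Fin r, |(a i : ℝ)| * (c + 1)) * (dt φ (fun l => (W₀ l : ℝ)) / m) ≤
            m / 4 * (dt φ (fun l => (W₀ l : ℝ)) / m) := mul_le_mul_of_nonneg_right h9 (by positivity)
        _ = dt φ (fun l => (W₀ l : ℝ)) / 4 := by field_simp
    have h7 : t * dt φ p = dt φ v + dt φ (fun l => (W₀ l : ℝ)) + t * θ * dt φ (fun l => (a l : ℝ)) := by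
      have h8 : dt φ v = t * (dt φ p - θ * dt φ (fun l => (a l : ℝ))) - dt φ (fun l => (W₀ l : ℝ)) := by
        rw [hv]
        unfold dt
        rw [Finset.mul_sum, ← Finset.sum_sub_distrib, Finset.mul_sum, ← Finset.sum_sub_distrib]
        exact Finset.sum_congr rfl fun i _ => by ring
      rw [h8]
      ring
    have h8 : t * θ ≤ 1 / 4 := by
      have h9 : t * θ ≤ t * (Dl * ε) := mul_le_mul_of_nonneg_left hθb ht0.le
      have h10 : 0 ≤ t * ε * Dl * Al := by positivity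
      have h11 : 0 ≤ t * ε := by positivity
      nlinarith
    have h9 : - (1 / 4 * dt φ (fun l => (W₀ l : ℝ))) ≤ t * θ * dt φ (fun l => (a l : ℝ)) := by
      have h10 : 0 ≤ t * θ := by positivity
      have h11 : t * θ * (- dt φ (fun l => (W₀ l : ℝ))) ≤ t * θ * dt φ (fun l => (a l : ℝ)) :=
        mul_le_mul_of_nonneg_left hφa h10
      have h12 : t * θ * dt φ (fun l => (W₀ l : ℝ)) ≤ 1 / 4 * dt φ (fun l => (W₀ l : ℝ)) :=
        mul_le_mul_of_nonneg_right h8 h3.le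
      linarith
    have h10 := (abs_le.1 h6).1
    have h11 : 0 < t * dt φ p := by rw [h7]; linarith
    exact (mul_pos_iff_of_pos_left ht0).1 h11

end Pool.Agent.H83.ZX
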